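import Pool.Agent.Helper17.CR.Stmts2

set_option autoImplicit false

namespace Pool.Agent.Helper17.CR

theorem st_PAIR : ST_PAIR := by
  intro D c e p x x' hp hc hce h1 h2 h3
  have hmul : p ^ e ∣ (x - x') * (x + x') := by
    have := dvd_sub h2 h3
    have e1 : (x ^ 2 + (D : ℤ)) - (x' ^ 2 + D) = (x - x') * (x + x') := by ring
    rwa [e1] at this
  have hnot : ¬ p ^ c ∣ x + x' := by
    intro h4
    apply hc
    have h5 : p ^ c ∣ 2 * x := by
      have := dvd_add h1 h4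
      have e1 : x - x' + (x + x') = 2 * x := by ring
      rwa [e1] at this
    have h6 : p ^ c ∣ (2 * x) * (2 * x) := dvd_mul_of_dvd_left h5 _
    have h7 : p ^ c ∣ 4 * (x ^ 2 + D) := dvd_mul_of_dvd_right (dvd_trans (pow_dvd_pow p hce) h2) _
    have := dvd_sub h7 h6
    have e1 : 4 * (x ^ 2 + (D : ℤ)) - 2 * x * (2 * x) = 4 * D := by ring
    rwa [e1] at this
  obtain ⟨d1, d2, h4, h5, h6⟩ := exists_dvd_and_dvd_of_dvd_mul hmul
  obtain ⟨i, hi, hai⟩ := (dvd_prime_pow hp e).1 (Dvd.intro d2 h6.symm)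
  obtain ⟨j, hj, haj⟩ := (dvd_prime_pow hp e).1 (Dvd.intro_left d1 h6.symm)
  have h7 : p ^ e ∣ p ^ (i + j) := by
    rw [h6, pow_add]
    exact (hai.mul_mul haj).dvd
  have h8 : e ≤ i + j := (pow_dvd_pow_iff hp.ne_zero hp.not_isUnit).1 h7
  have h9 : j < c := by
    by_contra hcon
    exact hnot (dvd_trans (pow_dvd_pow p (not_lt.1 hcon)) (dvd_trans haj.symm.dvd h5))
  exact dvd_trans (pow_dvd_pow p (by omega)) (dvd_trans hai.symm.dvd h4)

end Pool.Agent.Helper17.CR
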